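import Pool.Agent.Run7.h684.Smp.Inst

/-!
# Powers of integers, and the equivalences
-/

set_option autoImplicit false

open Filter Topology Set

namespace Run7.h684.Smp

noncomputable section

/-- the statement for a general set of samples -/
def Large (f : ℝ → ℝ) : Prop :=
  ∀ (Y : Set ℝ) (η C0 c θ ε : ℝ), 0 < η → η ≤ 1 → 0 < c →
    (∀ᶠ x : ℝ in atTop, ∃ y ∈ Y, x ≤ y ∧ y ≤ x + C0 * x ^ (1 - η)) →
    1 / 2 ≤ θ → (∃ s : ℂ, riemannZeta s = 0 ∧ θ < s.re) → 0 < ε →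
    ∀ᶠ X : ℝ in atTop, ∃ T : Finset ℝ, (∀ y ∈ T, y ∈ Y ∧ X ≤ y ∧ y ≤ X + c * X ∧ y ^ θ < f y) ∧
      X ^ (η - ε) ≤ T.card

/-- the upper bound -/
def Upper (f : ℝ → ℝ) : Prop :=
  ∀ θ : ℝ, 1 / 2 ≤ θ → (∀ s : ℂ, θ < s.re → riemannZeta s ≠ 0) → ∀ ε : ℝ, 0 < ε →
    ∀ᶠ y : ℝ in atTop, f y ≤ y ^ (θ + ε)

theorem large_psi : Large psiErr := fun Y _ _ _ _ _ h1 h2 h3 h4 h5 h6 h7 =>
  sparse_psi Y h1 h2 h3 h4 h5 h6 h7

theorem large_mer : Large merErr := fun Y _ _ _ _ _ h1 h2 h3 h4 h5 h6 h7 =>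
  sparse_mer Y h1 h2 h3 h4 h5 h6 h7

theorem upper_of {f : ℝ → ℝ} (h : ∀ θ : ℝ, 1 / 2 ≤ θ → (∀ s : ℂ, θ < s.re → riemannZeta s ≠ 0) →
    ∀ θ' : ℝ, θ < θ' → θ' ≤ 1 → ∃ C : ℝ, ∀ y : ℝ, 1 ≤ y → f y ≤ C * y ^ θ')
    (h1 : ∃ C : ℝ, ∀ y : ℝ, 1 ≤ y → f y ≤ C * y) : Upper f := by
  intro θ h0 hz ε hε
  rcases lt_or_ge θ 1 with hθ | hθ
  · have h2 : θ < min (θ + ε / 2) 1 := lt_min (by linarith) hθ
    obtain ⟨C, hC⟩ := h θ h0 hz _ h2 (min_le_right _ _)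
    have h3 := ev_rpow C (show min (θ + ε / 2) 1 < θ + ε by
      have := min_le_left (θ + ε / 2) 1
      linarith)
    filter_upwards [h3, eventually_ge_atTop 1] with y g1 g2
    exact (hC y g2).trans g1
  · obtain ⟨C, hC⟩ := h1
    have h3 := ev_rpow C (show (1 : ℝ) < θ + ε by linarith)
    filter_upwards [h3, eventually_ge_atTop 1] with y g1 g2
    have := hC y g2
    rw [Real.rpow_one] at g1
    linarith

theorem upper_psi : Upper psiErr := by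
  refine upper_of (fun θ h0 hz θ' h1 h2 => ?_) ?_
  · obtain ⟨C, _, hC⟩ := Pool.Agent.W190.psi_of_free θ h0 hz θ' h1 h2
    exact ⟨C, hC⟩
  · refine ⟨(Real.log 4 + 4) + 1, fun y hy => ?_⟩
    unfold psiErr
    have h1 := Chebyshev.psi_le_const_mul_self (x := y) (by linarith)
    have h2 := Chebyshev.psi_nonneg y
    rw [abs_le]
    constructor <;> nlinarith

theorem upper_mer : Upper merErr := by
  refine upper_of (fun θ h0 hz θ' h1 h2 => ?_) ?_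
  · obtain ⟨C, _, hC⟩ := Pool.Agent.H295R2.mertens_bound (by linarith) (Zs_free hz) h1 (by linarith)
    exact ⟨C, hC⟩
  · refine ⟨1, fun y hy => ?_⟩
    unfold merErr
    refine (Finset.abs_sum_le_sum_abs _ _).trans ?_
    have h1 : ∀ n ∈ Finset.Icc 1 ⌊y⌋₊, |((ArithmeticFunction.moebius n : ℤ) : ℝ)| ≤ 1 :=
      fun n _ => Pool.Agent.H295R2.abs_mu_le n
    refine (Finset.sum_le_sum h1).trans ?_
    simp only [Finset.sum_const, Nat.card_Icc, add_tsub_cancel_right, nsmul_eq_mul, mul_one, one_mul]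
    exact Nat.floor_le (by linarith)

/-- gaps of powers -/
theorem pow_gap {A : ℝ} (hA : 1 ≤ A) (x : ℝ) (hx : 1 ≤ x) :
    ∃ y ∈ Set.range (fun k : ℕ => (k : ℝ) ^ A), x ≤ y ∧ y ≤ x + (2 ^ A - 1) * x ^ (1 - 1 / A) := by
  have hA0 : 0 < A := by linarith
  have hx0 : 0 < x := by linarith
  set u : ℝ := x ^ (1 / A) with hu
  have hu1 : 1 ≤ u := Real.one_le_rpow hx (by positivity)
  have hu0 : 0 < u := by linarith
  have huA : u ^ A = x := by
    rw [hu, ← Real.rpow_mul hx0.le, one_div_mul_cancel hA0.ne', Real.rpow_one]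
  refine ⟨((⌈u⌉₊ : ℕ) : ℝ) ^ A, ⟨⌈u⌉₊, rfl⟩, ?_, ?_⟩
  · rw [← huA]
    exact Real.rpow_le_rpow hu0.le (Nat.le_ceil u) hA0.le
  · have h1 : ((⌈u⌉₊ : ℕ) : ℝ) ≤ u + 1 := (Nat.ceil_lt_add_one hu0.le).le
    have h2 : ((⌈u⌉₊ : ℕ) : ℝ) ^ A ≤ (u + 1) ^ A := Real.rpow_le_rpow (by positivity) h1 hA0.le
    have h3 : (u + 1) ^ A = x * (1 + 1 / u) ^ A := by
      rw [← huA, ← Real.mul_rpow hu0.le (by positivity)]
      congr 1
      field_simp
    have h4 : (1 + 1 / u) ^ A ≤ 1 + (2 ^ A - 1) * (1 / u) := by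
      have ha : 0 ≤ 1 - 1 / u := by
        have : 1 / u ≤ 1 := by
          rw [div_le_one hu0]
          exact hu1
        linarith
      have hb : 0 ≤ 1 / u := by positivity
      have hab : (1 - 1 / u) + 1 / u = 1 := by ring
      have m1 : (1 : ℝ) ∈ Ici (0 : ℝ) := by simp
      have m2 : (2 : ℝ) ∈ Ici (0 : ℝ) := by simp
      have hc := (convexOn_rpow hA).2 m1 m2 ha hb hab
      simp only [smul_eq_mul, Real.one_rpow, mul_one] at hc
      have e1 : 1 - 1 / u + 1 / u * 2 = 1 + 1 / u := by ring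
      rw [e1] at hc
      linarith
    have h5 : x * (1 / u) = x ^ (1 - 1 / A) := by
      rw [Real.rpow_sub hx0, Real.rpow_one, hu]
      ring
    calc ((⌈u⌉₊ : ℕ) : ℝ) ^ A ≤ x * (1 + 1 / u) ^ A := by rw [← h3]; exact h2
      _ ≤ x * (1 + (2 ^ A - 1) * (1 / u)) := mul_le_mul_of_nonneg_left h4 hx0.le
      _ = x + (2 ^ A - 1) * (x * (1 / u)) := by ring
      _ = _ := by rw [h5]

/-- the integers `k` in `(K, 2K]` with `f(k^A) > k^(A θ)` -/
def big (f : ℝ → ℝ) (A θ : ℝ) (K : ℕ) : Finset ℕ :=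
  (Finset.Ioc K (2 * K)).filter (fun k => ((k : ℝ) ^ A) ^ θ < f ((k : ℝ) ^ A))

theorem big_card {f : ℝ → ℝ} (hf : Large f) {A : ℝ} (hA : 1 ≤ A) {θ ε : ℝ} (hθ : 1 / 2 ≤ θ)
    (hz : ∃ s : ℂ, riemannZeta s = 0 ∧ θ < s.re) (hε : 0 < ε) :
    ∀ᶠ K : ℕ in atTop, (K : ℝ) ^ (1 - ε) ≤ (big f A θ K).card := by
  have hA0 : 0 < A := by linarith
  set e : ℝ := min ε 1 with he
  have he0 : 0 < e := lt_min hε one_pos
  have he1 : e ≤ 1 := min_le_right _ _
  have hee : e ≤ ε := min_le_left _ _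
  have hc : (0 : ℝ) < (3 / 2) ^ A - 1 := by
    have : (1 : ℝ) < (3 / 2) ^ A := Real.one_lt_rpow (by norm_num) hA0
    linarith
  have h1 := hf (Set.range (fun k : ℕ => (k : ℝ) ^ A)) (1 / A) (2 ^ A - 1) ((3 / 2) ^ A - 1) θ (e / A)
    (by positivity) (by rw [div_le_one hA0]; exact hA) hc
    (by filter_upwards [eventually_ge_atTop 1] with x hx using pow_gap hA x hx) hθ hz (by positivity)
  have ht : Tendsto (fun K : ℕ => ((K : ℝ) + 1) ^ A) atTop atTop :=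
    (tendsto_rpow_atTop hA0).comp (tendsto_atTop_add_const_right _ _ tendsto_natCast_atTop_atTop)
  filter_upwards [ht.eventually h1, eventually_ge_atTop 3] with K hK hK3
  obtain ⟨T, hT1, hT2⟩ := hK
  have hK3' : (3 : ℝ) ≤ K := by exact_mod_cast hK3
  have hK0 : (0 : ℝ) < K := by linarith
  have hsub : T ⊆ (big f A θ K).image (fun k : ℕ => (k : ℝ) ^ A) := by
    intro y hy
    obtain ⟨⟨k, hk⟩, g2, g3, g4⟩ := hT1 y hy
    simp only at hk
    rw [Finset.mem_image]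
    refine ⟨k, ?_, hk⟩
    unfold big
    rw [Finset.mem_filter, Finset.mem_Ioc]
    have g5 : (K : ℝ) + 1 ≤ k := by
      rw [← hk] at g2
      exact (Real.rpow_le_rpow_iff (by positivity) (by positivity) hA0).1 g2
    have g6 : (k : ℝ) ≤ 3 / 2 * (K + 1) := by
      rw [← hk] at g3
      have g7 : ((K : ℝ) + 1) ^ A + ((3 / 2) ^ A - 1) * ((K : ℝ) + 1) ^ A = (3 / 2 * (K + 1)) ^ A := by
        rw [Real.mul_rpow (by norm_num) (by positivity)]
        ring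
      rw [g7] at g3
      exact (Real.rpow_le_rpow_iff (by positivity) (by positivity) hA0).1 g3
    refine ⟨⟨?_, ?_⟩, ?_⟩
    · have : K + 1 ≤ k := by exact_mod_cast g5
      omega
    · have g8 : (k : ℝ) ≤ 2 * K := by linarith
      exact_mod_cast g8
    · rw [hk]
      exact g4
  have hcard : (T.card : ℝ) ≤ (big f A θ K).card := by
    exact_mod_cast (Finset.card_le_card hsub).trans Finset.card_image_le
  refine le_trans ?_ hcard
  refine le_trans ?_ hT2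
  have e1 : (((K : ℝ) + 1) ^ A) ^ (1 / A - e / A) = ((K : ℝ) + 1) ^ (1 - e) := by
    rw [← Real.rpow_mul (by positivity)]
    congr 1
    field_simp
  rw [e1]
  calc (K : ℝ) ^ (1 - ε) ≤ (K : ℝ) ^ (1 - e) :=
        Real.rpow_le_rpow_of_exponent_le (by linarith) (by linarith)
    _ ≤ ((K : ℝ) + 1) ^ (1 - e) := Real.rpow_le_rpow hK0.le (by linarith) (by linarith)

/-- the equivalences for powers -/
theorem equiv_pow {f : ℝ → ℝ} (hf : Large f) (hu : Upper f) {A : ℝ} (hA : 1 ≤ A) {θ : ℝ} (hθ : 1 / 2 ≤ θ) :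
    List.TFAE [∀ s : ℂ, θ < s.re → riemannZeta s ≠ 0,
      ∀ ε : ℝ, 0 < ε → ∀ᶠ k : ℕ in atTop, f ((k : ℝ) ^ A) ≤ ((k : ℝ) ^ A) ^ (θ + ε),
      ∀ ε : ℝ, 0 < ε → ∃ δ : ℝ, 0 < δ ∧ ∃ᶠ K : ℕ in atTop,
        ((big f A (θ + ε) K).card : ℝ) ≤ (K : ℝ) ^ (1 - δ)] := by
  have hA0 : 0 < A := by linarith
  tfae_have 1 → 2 := by
    intro h ε hε
    have ht : Tendsto (fun k : ℕ => (k : ℝ) ^ A) atTop atTop :=
      (tendsto_rpow_atTop hA0).comp tendsto_natCast_atTop_atTop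
    exact ht.eventually (hu θ hθ h ε hε)
  tfae_have 2 → 3 := by
    intro h ε hε
    refine ⟨1, one_pos, Eventually.frequently ?_⟩
    obtain ⟨k0, hk0⟩ := eventually_atTop.1 (h ε hε)
    filter_upwards [eventually_ge_atTop k0] with K hK
    have : big f A (θ + ε) K = ∅ := by
      unfold big
      rw [Finset.filter_eq_empty_iff]
      intro k hk
      rw [Finset.mem_Ioc] at hk
      exact not_lt.2 (hk0 k (by omega))
    rw [this]
    simp
  tfae_have 3 → 1 := by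
    intro h s hs h0
    obtain ⟨δ, hδ, h1⟩ := h ((s.re - θ) / 2) (by linarith)
    have h2 := big_card hf hA (θ := θ + (s.re - θ) / 2) (ε := δ / 2) (by linarith)
      ⟨s, h0, by linarith⟩ (by positivity)
    obtain ⟨K, hK1, hK2, hK3⟩ := (h1.and_eventually (h2.and (eventually_ge_atTop 2))).exists
    have h3 : (K : ℝ) ^ (1 - δ / 2) ≤ (K : ℝ) ^ (1 - δ) := hK2.trans hK1
    have hK3' : (1 : ℝ) < K := by exact_mod_cast (show 1 < K by omega)
    have h4 := (Real.rpow_le_rpow_left_iff hK3').1 h3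
    linarith
  tfae_finish

/-- the equivalence for general sets of samples -/
theorem equiv_set {f : ℝ → ℝ} (hf : Large f) (hu : Upper f) (Y : Set ℝ) {η C0 : ℝ} (hη : 0 < η)
    (hη1 : η ≤ 1)
    (hY : ∀ᶠ x : ℝ in atTop, ∃ y ∈ Y, x ≤ y ∧ y ≤ x + C0 * x ^ (1 - η)) {θ : ℝ} (hθ : 1 / 2 ≤ θ) :
    (∀ s : ℂ, θ < s.re → riemannZeta s ≠ 0) ↔
      ∀ ε : ℝ, 0 < ε → ∀ᶠ y : ℝ in atTop, y ∈ Y → f y ≤ y ^ (θ + ε) := by
  constructor
  · intro h ε hε
    filter_upwards [hu θ hθ h ε hε] with y hy _ using hy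
  · intro h s hs h0
    have h2 := hf Y η C0 1 (θ + (s.re - θ) / 2) (η / 2) hη hη1 one_pos hY (by linarith)
      ⟨s, h0, by linarith⟩ (by positivity)
    obtain ⟨x0, hx0⟩ := eventually_atTop.1 (h ((s.re - θ) / 2) (by linarith))
    obtain ⟨X, ⟨T, hT1, hT2⟩, hX1, hX2⟩ :=
      (h2.and ((eventually_ge_atTop x0).and (eventually_ge_atTop 1))).exists
    have h3 : 0 < T.card := by
      have : (0 : ℝ) < X ^ (η - η / 2) := Real.rpow_pos_of_pos (by linarith) _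
      exact_mod_cast this.trans_le hT2
    obtain ⟨y, hy⟩ := Finset.card_pos.1 h3
    obtain ⟨g1, g2, g3, g4⟩ := hT1 y hy
    exact absurd (hx0 y (by linarith) g1) (not_le.2 g4)

/-- the question Q1 -/
theorem equiv_Q1 {f : ℝ → ℝ} (hf : Large f) (hu : Upper f) {A : ℝ} (hA : 1 ≤ A) :
    List.TFAE [∃ σ₀ : ℝ, 1 / 2 < σ₀ ∧ σ₀ < 1 ∧ ∀ s : ℂ, σ₀ ≤ s.re → riemannZeta s ≠ 0,
      ∃ τ : ℝ, τ < 1 ∧ ∀ᶠ k : ℕ in atTop, f ((k : ℝ) ^ A) ≤ ((k : ℝ) ^ A) ^ τ,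
      ∃ τ δ : ℝ, τ < 1 ∧ 0 < δ ∧ ∃ᶠ K : ℕ in atTop,
        ((big f A τ K).card : ℝ) ≤ (K : ℝ) ^ (1 - δ)] := by
  have hA0 : 0 < A := by linarith
  tfae_have 1 → 2 := by
    rintro ⟨σ₀, h1, h2, h3⟩
    refine ⟨σ₀ + (1 - σ₀) / 2, by linarith, ?_⟩
    have h5 : (∀ s : ℂ, σ₀ < s.re → riemannZeta s ≠ 0) ↔
        ∀ ε : ℝ, 0 < ε → ∀ᶠ k : ℕ in atTop, f ((k : ℝ) ^ A) ≤ ((k : ℝ) ^ A) ^ (σ₀ + ε) :=
      (equiv_pow hf hu hA h1.le).out 0 1
    exact h5.1 (fun s hs => h3 s hs.le) _ (by linarith)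
  tfae_have 2 → 3 := by
    rintro ⟨τ, h1, h2⟩
    refine ⟨τ, 1, h1, one_pos, Eventually.frequently ?_⟩
    obtain ⟨k0, hk0⟩ := eventually_atTop.1 h2
    filter_upwards [eventually_ge_atTop k0] with K hK
    have : big f A τ K = ∅ := by
      unfold big
      rw [Finset.filter_eq_empty_iff]
      intro k hk
      rw [Finset.mem_Ioc] at hk
      exact not_lt.2 (hk0 k (by omega))
    rw [this]
    simp
  tfae_have 3 → 1 := by
    rintro ⟨τ, δ, h1, hδ, h2⟩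
    set t : ℝ := max τ (1 / 2) with ht
    have ht1 : t < 1 := max_lt h1 (by norm_num)
    have ht2 : 1 / 2 ≤ t := le_max_right _ _
    refine ⟨(t + 1) / 2, by linarith, by linarith, fun s hs h0 => ?_⟩
    have h3 := big_card hf hA (θ := t) (ε := δ / 2) ht2 ⟨s, h0, by linarith⟩ (by positivity)
    obtain ⟨K, hK1, hK2, hK3⟩ := (h2.and_eventually (h3.and (eventually_ge_atTop 2))).exists
    have hK3' : (1 : ℝ) < K := by exact_mod_cast (show 1 < K by omega)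
    have h5 : (big f A t K).card ≤ (big f A τ K).card := by
      refine Finset.card_le_card ?_
      unfold big
      intro k hk
      rw [Finset.mem_filter] at hk ⊢
      refine ⟨hk.1, lt_of_le_of_lt ?_ hk.2⟩
      have hk1 : 1 ≤ k := by
        have := (Finset.mem_Ioc.1 hk.1).1
        omega
      have hk2 : (1 : ℝ) ≤ (k : ℝ) ^ A := Real.one_le_rpow (by exact_mod_cast hk1) hA0.le
      exact Real.rpow_le_rpow_of_exponent_le hk2 (le_max_left _ _)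
    have h5' : ((big f A t K).card : ℝ) ≤ (big f A τ K).card := by exact_mod_cast h5
    have h6 : (K : ℝ) ^ (1 - δ / 2) ≤ (K : ℝ) ^ (1 - δ) := (hK2.trans h5').trans hK1
    have h4 := (Real.rpow_le_rpow_left_iff hK3').1 h6
    linarith
  tfae_finish

end

end Run7.h684.Smp
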