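import Pool.Agent.W190.A17
import Pool.Agent.Helper625.Planch

/-!
# Mean squares of the increments of the partial sums of a Dirichlet series, in the logarithmic scale
-/

set_option autoImplicit false

open MeasureTheory Filter Topology Set
open Pool.Agent.H295R2 (Nice Lap)

namespace Run7.h684.Smp

noncomputable section

/-- partial sums -/
def PS (a : ℕ → ℂ) (y : ℝ) : ℂ := ∑ n ∈ Finset.Icc 1 ⌊y⌋₊, a n

/-- partial sums in the logarithmic scale -/
def E (a : ℕ → ℂ) (u : ℝ) : ℂ := PS a (Real.exp u)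

/-- the data: a Dirichlet series with a continuation to a half-plane -/
structure Dat (a : ℕ → ℂ) (F : ℂ → ℂ) (θ : ℝ) : Prop where
  h0 : 0 ≤ θ
  coe : ∀ n : ℕ, ‖a n‖ ≤ 2 + Real.log n
  ser : ∀ s : ℂ, 1 < s.re → LSeries a s = F s
  dif : ∀ s : ℂ, θ < s.re → DifferentiableAt ℂ F s
  sum : ∀ σ : ℝ, θ < σ → σ ≤ 1 → ∃ C : ℝ, ∀ y : ℝ, 1 ≤ y → ‖PS a y‖ ≤ C * y ^ σ
  gro : ∀ σ ε : ℝ, θ < σ → σ ≤ 1 → 0 < ε →
    ∃ C : ℝ, ∀ t : ℝ, ‖F (σ + t * Complex.I)‖ ≤ C * (1 + |t|) ^ ε

variable {a : ℕ → ℂ} {F : ℂ → ℂ} {θ : ℝ}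

theorem PS_of_lt {y : ℝ} (hy : y < 1) : PS a y = 0 := by
  unfold PS
  have : ⌊y⌋₊ = 0 := Nat.floor_eq_zero.2 hy
  rw [this]
  simp

theorem measurable_PS (a : ℕ → ℂ) : Measurable (PS a) := by
  unfold PS
  exact (Measurable.of_discrete (f := fun n : ℕ => ∑ m ∈ Finset.Icc 1 n, a m)).comp
    Nat.measurable_floor

theorem measurable_E (a : ℕ → ℂ) : Measurable (E a) :=
  (measurable_PS a).comp Real.measurable_exp

/-- the coefficients are small -/
theorem Dat.coe_rpow (h : Dat a F θ) {ε : ℝ} (hε : 0 < ε) {n : ℕ} (hn : n ≠ 0) :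
    ‖a n‖ ≤ (2 + 1 / ε) * (n : ℝ) ^ ε := by
  have hn1 : (1 : ℝ) ≤ n := by exact_mod_cast Nat.one_le_iff_ne_zero.2 hn
  have h1 : Real.log n ≤ (n : ℝ) ^ ε / ε := Real.log_le_rpow_div (by linarith) hε
  have h2 : 1 ≤ (n : ℝ) ^ ε := Real.one_le_rpow hn1 hε.le
  refine (h.coe n).trans ?_
  have h3 : (2 + 1 / ε) * (n : ℝ) ^ ε = 2 * (n : ℝ) ^ ε + (n : ℝ) ^ ε / ε := by ring
  rw [h3]
  linarith

theorem Dat.summable (h : Dat a F θ) {s : ℂ} (hs : 1 < s.re) : LSeriesSummable a s := by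
  have hx : (1 + s.re) / 2 < s.re := by linarith
  refine LSeriesSummable_of_le_const_mul_rpow hx ⟨2 + 1 / ((s.re - 1) / 2), fun n hn => ?_⟩
  have h1 := h.coe_rpow (ε := (s.re - 1) / 2) (by linarith) hn
  have h2 : (1 + s.re) / 2 - 1 = (s.re - 1) / 2 := by ring
  rw [h2]
  exact h1

/-- all exponents -/
theorem Dat.sum' (h : Dat a F θ) {σ : ℝ} (hσ : θ < σ) :
    ∃ C : ℝ, 0 ≤ C ∧ ∀ y : ℝ, 1 ≤ y → ‖PS a y‖ ≤ C * y ^ σ := by
  have key : ∃ C : ℝ, ∀ y : ℝ, 1 ≤ y → ‖PS a y‖ ≤ C * y ^ σ := by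
    by_cases h1 : σ ≤ 1
    · exact h.sum σ hσ h1
    · push Not at h1
      refine ⟨2 + 1 / (σ - 1), fun y hy => ?_⟩
      have hy0 : 0 < y := by linarith
      have h2 : ∀ n ∈ Finset.Icc 1 ⌊y⌋₊, ‖a n‖ ≤ (2 + 1 / (σ - 1)) * y ^ (σ - 1) := by
        intro n hn
        rw [Finset.mem_Icc] at hn
        refine (h.coe_rpow (ε := σ - 1) (by linarith) (by omega)).trans ?_
        have h3 : (n : ℝ) ≤ y := (Nat.le_floor_iff hy0.le).1 hn.2
        have h4 : 0 < σ - 1 := by linarith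
        gcongr
      unfold PS
      refine (norm_sum_le _ _).trans ((Finset.sum_le_sum h2).trans ?_)
      rw [Finset.sum_const, Nat.card_Icc, nsmul_eq_mul, Nat.add_sub_cancel]
      have h5 : (⌊y⌋₊ : ℝ) ≤ y := Nat.floor_le hy0.le
      have h6 : y ^ σ = y * y ^ (σ - 1) := by
        rw [← Real.rpow_one_add' hy0.le (by linarith)]
        congr 1
        ring
      have h7 : 0 ≤ 1 / (σ - 1) := by
        have : 0 < σ - 1 := by linarith
        positivity
      have h8 : 0 ≤ y ^ (σ - 1) := Real.rpow_nonneg hy0.le _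
      rw [h6]
      calc (⌊y⌋₊ : ℝ) * ((2 + 1 / (σ - 1)) * y ^ (σ - 1)) ≤ y * ((2 + 1 / (σ - 1)) * y ^ (σ - 1)) :=
            mul_le_mul_of_nonneg_right h5 (by positivity)
        _ = _ := by ring
  obtain ⟨C, hC⟩ := key
  refine ⟨C, ?_, hC⟩
  have := (norm_nonneg _).trans (hC 1 le_rfl)
  simpa using this

theorem Dat.gro' (h : Dat a F θ) {σ ε : ℝ} (hσ : θ < σ) (hε : 0 < ε) :
    ∃ C : ℝ, 0 ≤ C ∧ ∀ t : ℝ, ‖F (σ + t * Complex.I)‖ ≤ C * (1 + |t|) ^ ε := by
  have key : ∃ C : ℝ, ∀ t : ℝ, ‖F (σ + t * Complex.I)‖ ≤ C * (1 + |t|) ^ ε := by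
    by_cases h1 : σ ≤ 1
    · exact h.gro σ ε hσ h1 hε
    · push Not at h1
      have hs : ∀ t : ℝ, 1 < ((σ : ℂ) + t * Complex.I).re := by intro t; simpa using h1
      have hre : ∀ t : ℝ, ((σ : ℂ) + t * Complex.I).re = σ := by intro t; simp
      refine ⟨∑' n, ‖LSeries.term a ((σ : ℂ) + (0 : ℝ) * Complex.I) n‖, fun t => ?_⟩
      rw [← h.ser _ (hs t)]
      have e1 : ∀ n, ‖LSeries.term a ((σ : ℂ) + t * Complex.I) n‖ =
          ‖LSeries.term a ((σ : ℂ) + (0 : ℝ) * Complex.I) n‖ := by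
        intro n
        rw [LSeries.norm_term_eq, LSeries.norm_term_eq, hre, hre]
      have h3 : ‖LSeries a ((σ : ℂ) + t * Complex.I)‖ ≤
          ∑' n, ‖LSeries.term a ((σ : ℂ) + t * Complex.I) n‖ :=
        norm_tsum_le_tsum_norm (h.summable (hs t)).norm
      simp_rw [e1] at h3
      refine h3.trans ?_
      have h4 : 0 ≤ ∑' n, ‖LSeries.term a ((σ : ℂ) + (0 : ℝ) * Complex.I) n‖ :=
        tsum_nonneg fun n => norm_nonneg _
      have h5 : 1 ≤ (1 + |t|) ^ ε := Real.one_le_rpow (by linarith [abs_nonneg t]) hε.le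
      exact le_mul_of_one_le_right h4 h5
  obtain ⟨C, hC⟩ := key
  refine ⟨C, ?_, hC⟩
  have := (norm_nonneg _).trans (hC 0)
  simpa using this

theorem Dat.nice (h : Dat a F θ) {σ : ℝ} (hσ : θ < σ) : ∃ C : ℝ, Nice (E a) C σ 0 := by
  obtain ⟨C, hC0, hC⟩ := h.sum' hσ
  refine ⟨C, measurable_E a, fun u => ?_, fun u hu => ?_⟩
  · by_cases hu : 0 ≤ u
    · have h1 := hC (Real.exp u) (Real.one_le_exp hu)
      unfold E
      refine h1.trans (le_of_eq ?_)
      rw [← Real.exp_mul, mul_comm u]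
    · have h1 : E a u = 0 := PS_of_lt (by rw [Real.exp_lt_one_iff]; linarith)
      rw [h1, norm_zero]
      positivity
  · exact PS_of_lt (by rw [Real.exp_lt_one_iff]; exact hu)

/-- the change of variables -/
theorem lap_of_mellin (g : ℝ → ℂ) (hg : ∀ y : ℝ, y < 1 → g y = 0) (s : ℂ) :
    ∫ t in Ioi (1 : ℝ), g t * (t : ℂ) ^ (-(s + 1)) = ∫ u : ℝ, g (Real.exp u) * Complex.exp (-(s * u)) := by
  have h1 : ∫ t in Ioi (1 : ℝ), g t * (t : ℂ) ^ (-(s + 1)) =
      ∫ t in Ioi (0 : ℝ), g t * (t : ℂ) ^ (-(s + 1)) := by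
    rw [← integral_Ici_eq_integral_Ioi]
    refine (setIntegral_eq_of_subset_of_forall_sdiff_eq_zero measurableSet_Ioi ?_ ?_).symm
    · intro t ht
      have ht' : (1 : ℝ) ≤ t := ht
      exact lt_of_lt_of_le zero_lt_one ht'
    · intro t ht
      have : t < 1 := by
        by_contra hcon
        exact ht.2 (not_lt.1 hcon)
      rw [hg t this, zero_mul]
  have h2 : Real.exp '' univ = Ioi (0 : ℝ) := by
    rw [image_univ, Real.range_exp]
  rw [h1, ← h2, integral_image_eq_integral_abs_deriv_smul MeasurableSet.univ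
    (f' := Real.exp) (fun x _ => (Real.hasDerivAt_exp x).hasDerivWithinAt) Real.exp_injective.injOn,
    setIntegral_univ]
  refine integral_congr_ae (Eventually.of_forall fun u => ?_)
  simp only [Real.abs_exp]
  rw [Complex.real_smul, Complex.cpow_def_of_ne_zero (by exact_mod_cast (Real.exp_pos u).ne')]
  have e1 : Complex.log ((Real.exp u : ℝ) : ℂ) = u := by
    rw [← Complex.ofReal_log (Real.exp_pos u).le, Real.log_exp]
  rw [e1, Complex.ofReal_exp]
  calc Complex.exp u * (g (Real.exp u) * Complex.exp (u * -(s + 1)))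
      = g (Real.exp u) * (Complex.exp u * Complex.exp (u * -(s + 1))) := by ring
    _ = g (Real.exp u) * Complex.exp (-(s * u)) := by
        rw [← Complex.exp_add]
        congr 2
        ring

/-- **The Laplace transform.** -/
theorem Dat.lap (h : Dat a F θ) {s : ℂ} (hs : θ < s.re) : s * Lap (E a) s = F s := by
  set σ : ℝ := (θ + s.re) / 2 with hσ
  have h1 : θ < σ := by rw [hσ]; linarith
  have h2 : σ < s.re := by rw [hσ]; linarith
  obtain ⟨C, hC⟩ := h.nice h1
  set U : Set ℂ := {z : ℂ | σ < z.re} with hU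
  have hUo : IsOpen U := isOpen_lt continuous_const Complex.continuous_re
  have hUc : IsPreconnected U := (convex_halfSpace_re_gt σ).isPreconnected
  have hd1 : DifferentiableOn ℂ (fun z : ℂ => z * Lap (E a) z) U := fun z hz =>
    (differentiableAt_id.mul (hC.Lap_differentiableAt hz)).differentiableWithinAt
  have hd2 : DifferentiableOn ℂ F U := fun z hz =>
    (h.dif z (h1.trans hz)).differentiableWithinAt
  have hw : s + 2 ∈ U := by
    change σ < (s + 2).re
    simp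
    linarith
  have hev : (fun z : ℂ => z * Lap (E a) z) =ᶠ[𝓝 (s + 2)] F := by
    have hopen : IsOpen {z : ℂ | max 1 σ < z.re} := isOpen_lt continuous_const Complex.continuous_re
    have h0 := h.h0
    have h3 : s + 2 ∈ {z : ℂ | max 1 σ < z.re} := by
      change max 1 σ < (s + 2).re
      rw [max_lt_iff]
      simp
      constructor <;> linarith
    filter_upwards [hopen.mem_nhds h3] with z hz
    have hz' : max 1 σ < z.re := hz
    have hz1 : 1 < z.re := (le_max_left _ _).trans_lt hz'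
    have hz2 : σ < z.re := (le_max_right _ _).trans_lt hz'
    obtain ⟨C', hC0', hC'⟩ := h.sum' h1
    rw [← h.ser z hz1, LSeries_eq_mul_integral a (r := σ) (by linarith) hz2 (h.summable hz1) (by
        apply Asymptotics.IsBigO.of_bound C'
        filter_upwards [eventually_ge_atTop 1] with n hn
        have h6 := hC' n (by exact_mod_cast hn)
        unfold PS at h6
        rw [Nat.floor_natCast] at h6
        rwa [Real.norm_of_nonneg (Real.rpow_nonneg (Nat.cast_nonneg n) _)])]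
    congr 1
    rw [Lap]
    exact (lap_of_mellin (PS a) (fun y hy => PS_of_lt hy) z).symm
  exact (hd1.analyticOnNhd hUo).eqOn_of_preconnected_of_eventuallyEq
    (hd2.analyticOnNhd hUo) hUc hw hev h2

end

end Run7.h684.Smp
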