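import Mathlib

/-!
# A chain of averages: the oscillation over cells from the mean squares of increments
-/

set_option autoImplicit false

open MeasureTheory Set

namespace Run7.h684.Smp

noncomputable section

/-- the average over `[u, u + h]` -/
def Av (e : ℝ → ℂ) (h u : ℝ) : ℂ := ((h : ℝ) : ℂ)⁻¹ * ∫ v in u..(u + h), e v

variable {e : ℝ → ℂ}

theorem ii_shift (hi : ∀ a b : ℝ, IntervalIntegrable e volume a b) (h a b : ℝ) :
    IntervalIntegrable (fun v => e (v + h)) volume a b := by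
  have := (hi (a + h) (b + h)).comp_add_right h
  simpa using this

theorem ii_diff (hi : ∀ a b : ℝ, IntervalIntegrable e volume a b) (h a b : ℝ) :
    IntervalIntegrable (fun v => e (v + h) - e v) volume a b :=
  (ii_shift hi h a b).sub (hi a b)

theorem ii_norm (hi : ∀ a b : ℝ, IntervalIntegrable e volume a b) (h a b : ℝ) :
    IntervalIntegrable (fun v => ‖e (v + h) - e v‖) volume a b :=
  (ii_diff hi h a b).norm

/-- one step of the chain -/
theorem half (hi : ∀ a b : ℝ, IntervalIntegrable e volume a b) {h : ℝ} (hh : 0 < h) (u : ℝ) :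
    Av e (2 * h) u - Av e h u =
      ((2 * h : ℝ) : ℂ)⁻¹ * ∫ v in u..(u + h), (e (v + h) - e v) := by
  have hc : ((h : ℝ) : ℂ) ≠ 0 := by exact_mod_cast hh.ne'
  unfold Av
  have e1 : ∫ v in u..(u + 2 * h), e v = (∫ v in u..(u + h), e v) + ∫ v in (u + h)..(u + 2 * h), e v :=
    (intervalIntegral.integral_add_adjacent_intervals (hi _ _) (hi _ _)).symm
  have e2 : ∫ v in (u + h)..(u + 2 * h), e v = ∫ v in u..(u + h), e (v + h) := by
    rw [intervalIntegral.integral_comp_add_right (fun v => e v) h]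
    congr 1
    ring
  rw [e1, e2, intervalIntegral.integral_sub (ii_shift hi h _ _) (hi _ _)]
  push_cast
  field_simp
  ring

/-- neighbouring averages -/
theorem near (hi : ∀ a b : ℝ, IntervalIntegrable e volume a b) (δ u w : ℝ) :
    Av e δ w - Av e δ u = ((δ : ℝ) : ℂ)⁻¹ * ∫ v in u..w, (e (v + δ) - e v) := by
  unfold Av
  rw [intervalIntegral.integral_sub (ii_shift hi δ _ _) (hi _ _),
    intervalIntegral.integral_comp_add_right (fun v => e v) δ]
  have e1 : (∫ v in w..(w + δ), e v) = (∫ v in w..u, e v) + (∫ v in u..(u + δ), e v) +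
      ∫ v in (u + δ)..(w + δ), e v := by
    rw [intervalIntegral.integral_add_adjacent_intervals (hi _ _) (hi _ _),
      intervalIntegral.integral_add_adjacent_intervals (hi _ _) (hi _ _)]
  rw [e1, intervalIntegral.integral_symm u w]
  ring

/-- the end of the chain -/
theorem av_end (hi : ∀ a b : ℝ, IntervalIntegrable e volume a b) {h M : ℝ} (hh : 0 < h) {u : ℝ}
    (hM : ∀ v ∈ Icc u (u + h), ‖e v - e u‖ ≤ M) : ‖Av e h u - e u‖ ≤ M := by
  have hc : ((h : ℝ) : ℂ) ≠ 0 := by exact_mod_cast hh.ne'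
  have e1 : Av e h u - e u = ((h : ℝ) : ℂ)⁻¹ * ∫ v in u..(u + h), (e v - e u) := by
    unfold Av
    rw [intervalIntegral.integral_sub (hi _ _) intervalIntegrable_const,
      intervalIntegral.integral_const]
    rw [add_sub_cancel_left, Complex.real_smul]
    field_simp
  rw [e1, norm_mul, norm_inv, Complex.norm_real, Real.norm_of_nonneg hh.le]
  have h2 : ‖∫ v in u..(u + h), (e v - e u)‖ ≤ M * |u + h - u| := by
    refine intervalIntegral.norm_integral_le_of_norm_le_const fun v hv => ?_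
    rw [uIoc_of_le (by linarith)] at hv
    exact hM v ⟨hv.1.le, hv.2⟩
  rw [add_sub_cancel_left, abs_of_pos hh] at h2
  calc h⁻¹ * ‖∫ v in u..(u + h), (e v - e u)‖ ≤ h⁻¹ * (M * h) :=
        mul_le_mul_of_nonneg_left h2 (by positivity)
    _ = M := by field_simp

/-- the chain -/
theorem chain (hi : ∀ a b : ℝ, IntervalIntegrable e volume a b) {δ : ℝ} (hδ : 0 < δ) (u : ℝ) (J : ℕ) :
    ‖Av e δ u - Av e (δ / 2 ^ J) u‖ ≤ ∑ j ∈ Finset.range J, (2 * (δ / 2 ^ (j + 1)))⁻¹ *
      ∫ v in u..(u + δ / 2 ^ (j + 1)), ‖e (v + δ / 2 ^ (j + 1)) - e v‖ := by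
  induction J with
  | zero => simp
  | succ J ih =>
    rw [Finset.sum_range_succ]
    have hh : 0 < δ / 2 ^ (J + 1) := by positivity
    have e1 : δ / 2 ^ J = 2 * (δ / 2 ^ (J + 1)) := by
      rw [pow_succ]
      field_simp
    have e2 := half hi hh u
    rw [← e1] at e2
    have e3 : Av e δ u - Av e (δ / 2 ^ (J + 1)) u =
        (Av e δ u - Av e (δ / 2 ^ J) u) + (Av e (δ / 2 ^ J) u - Av e (δ / 2 ^ (J + 1)) u) := by ring
    rw [e3, e2]
    refine (norm_add_le _ _).trans (add_le_add ih ?_)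
    rw [norm_mul, norm_inv, Complex.norm_real, Real.norm_of_nonneg (by positivity), e1]
    refine mul_le_mul_of_nonneg_left ?_ (by positivity)
    exact intervalIntegral.norm_integral_le_integral_norm (by linarith)

/-- the arithmetic-geometric mean inequality on an interval -/
theorem amgm {D : ℝ → ℝ} {x y lam : ℝ} (hxy : x ≤ y) (hl : 0 < lam)
    (h1 : IntervalIntegrable D volume x y) (h2 : IntervalIntegrable (fun v => D v ^ 2) volume x y) :
    ∫ v in x..y, D v ≤ (y - x) * (lam / 2) + (2 * lam)⁻¹ * ∫ v in x..y, D v ^ 2 := by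
  have e1 : ∫ v in x..y, D v ≤ ∫ v in x..y, (lam / 2 + (2 * lam)⁻¹ * D v ^ 2) := by
    refine intervalIntegral.integral_mono_on hxy h1
      (intervalIntegrable_const.add (h2.const_mul _)) fun v _ => ?_
    have h3 : 0 ≤ (2 * lam)⁻¹ * (D v - lam) ^ 2 := by positivity
    have h4 : (2 * lam)⁻¹ * (D v - lam) ^ 2 = (2 * lam)⁻¹ * D v ^ 2 - D v + lam / 2 := by
      field_simp
      ring
    linarith
  refine e1.trans (le_of_eq ?_)
  rw [intervalIntegral.integral_add intervalIntegrable_const (h2.const_mul _),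
    intervalIntegral.integral_const, intervalIntegral.integral_const_mul, smul_eq_mul]

/-- adjacent cells -/
theorem sum_cells {D : ℝ → ℝ} (U δ : ℝ) (h1 : ∀ a b : ℝ, IntervalIntegrable D volume a b) (n : ℕ) :
    ∑ i ∈ Finset.range n, ∫ v in (U + i * δ)..(U + (i + 1) * δ), D v = ∫ v in U..(U + n * δ), D v := by
  have := intervalIntegral.sum_integral_adjacent_intervals (f := D) (μ := volume)
    (a := fun i : ℕ => U + i * δ) (n := n) (fun k _ => h1 _ _)
  push_cast at this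
  rw [this]
  simp

/-- short intervals which start in the cells -/
theorem sum_short {D : ℝ → ℝ} {U δ h : ℝ} (hδ : 0 < δ) (hh : 0 < h) (hhδ : h ≤ δ)
    (hD : ∀ v, 0 ≤ D v) (h1 : ∀ a b : ℝ, IntervalIntegrable D volume a b) (n : ℕ) (p : ℕ → ℝ)
    (hp : ∀ i < n, U + i * δ ≤ p i ∧ p i ≤ U + (i + 1) * δ) :
    ∑ i ∈ Finset.range n, ∫ v in (p i)..(p i + h), D v ≤ 2 * ∫ v in U..(U + (n + 1) * δ), D v := by
  have h2 : ∀ i ∈ Finset.range n, ∫ v in (p i)..(p i + h), D v ≤
      (∫ v in (U + i * δ)..(U + (i + 1) * δ), D v) +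
        ∫ v in ((U + δ) + i * δ)..((U + δ) + (i + 1) * δ), D v := by
    intro i hi
    obtain ⟨h3, h4⟩ := hp i (Finset.mem_range.1 hi)
    have e1 : (U + δ) + (i : ℝ) * δ = U + (i + 1) * δ := by ring
    rw [e1, intervalIntegral.integral_add_adjacent_intervals (h1 _ _) (h1 _ _)]
    refine intervalIntegral.integral_mono_interval h3 (by linarith) ?_ ?_ (h1 _ _)
    · have : (U + δ) + ((i : ℝ) + 1) * δ = U + (i + 1) * δ + δ := by ring
      linarith
    · exact Filter.Eventually.of_forall hD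
  refine (Finset.sum_le_sum h2).trans ?_
  rw [Finset.sum_add_distrib, sum_cells U δ h1 n, sum_cells (U + δ) δ h1 n, two_mul]
  have hn : (0 : ℝ) ≤ n := Nat.cast_nonneg n
  have hnδ : 0 ≤ (n : ℝ) * δ := by positivity
  refine add_le_add ?_ ?_
  · refine intervalIntegral.integral_mono_interval le_rfl (by linarith) (by nlinarith) ?_ (h1 _ _)
    exact Filter.Eventually.of_forall hD
  · have e2 : U + δ + (n : ℝ) * δ = U + (n + 1) * δ := by ring
    rw [e2]
    refine intervalIntegral.integral_mono_interval (by linarith) (by nlinarith) le_rfl ?_ (h1 _ _)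
    exact Filter.Eventually.of_forall hD

/-- one scale -/
theorem one_scale {U δ h B : ℝ} {n : ℕ} (hn : 0 < n) (hδ : 0 < δ) (hh : 0 < h) (hhδ : h ≤ δ) (hB : 0 < B)
    (hi : ∀ a b : ℝ, IntervalIntegrable e volume a b)
    (hi2 : ∀ a b : ℝ, IntervalIntegrable (fun v => ‖e (v + h) - e v‖ ^ 2) volume a b)
    (hQ : ∫ v in U..(U + (n + 1) * δ), ‖e (v + h) - e v‖ ^ 2 ≤ h * B ^ 2 / n) (p : ℕ → ℝ)
    (hp : ∀ i < n, U + i * δ ≤ p i ∧ p i ≤ U + (i + 1) * δ) :
    ∑ i ∈ Finset.range n, (2 * h)⁻¹ * ∫ v in (p i)..(p i + h), ‖e (v + h) - e v‖ ≤ B := by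
  have hnR : (0 : ℝ) < n := by exact_mod_cast hn
  have hl : 0 < B / n := by positivity
  have h1 : ∀ i ∈ Finset.range n, ∫ v in (p i)..(p i + h), ‖e (v + h) - e v‖ ≤
      h * (B / n / 2) + (2 * (B / n))⁻¹ * ∫ v in (p i)..(p i + h), ‖e (v + h) - e v‖ ^ 2 := by
    intro i _
    have := amgm (lam := B / n) (show p i ≤ p i + h by linarith) hl (ii_norm hi h _ _) (hi2 _ _)
    rwa [add_sub_cancel_left] at this
  have h2 := sum_short hδ hh hhδ (D := fun v => ‖e (v + h) - e v‖ ^ 2) (fun v => by positivity) hi2 n p hp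
  rw [← Finset.mul_sum]
  calc (2 * h)⁻¹ * ∑ i ∈ Finset.range n, ∫ v in (p i)..(p i + h), ‖e (v + h) - e v‖
      ≤ (2 * h)⁻¹ * ∑ i ∈ Finset.range n, (h * (B / n / 2) +
          (2 * (B / n))⁻¹ * ∫ v in (p i)..(p i + h), ‖e (v + h) - e v‖ ^ 2) :=
        mul_le_mul_of_nonneg_left (Finset.sum_le_sum h1) (by positivity)
    _ = (2 * h)⁻¹ * (n * (h * (B / n / 2)) + (2 * (B / n))⁻¹ *
          ∑ i ∈ Finset.range n, ∫ v in (p i)..(p i + h), ‖e (v + h) - e v‖ ^ 2) := by
        rw [Finset.sum_add_distrib, Finset.sum_const, Finset.card_range, nsmul_eq_mul, Finset.mul_sum]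
    _ ≤ (2 * h)⁻¹ * (n * (h * (B / n / 2)) + (2 * (B / n))⁻¹ * (2 * (h * B ^ 2 / n))) := by
        have h3 : ∑ i ∈ Finset.range n, ∫ v in (p i)..(p i + h), ‖e (v + h) - e v‖ ^ 2 ≤
            2 * (h * B ^ 2 / n) := h2.trans (by linarith)
        gcongr
    _ = 3 / 4 * B := by
        field_simp
        ring
    _ ≤ B := by linarith

/-- neighbouring averages, summed -/
theorem near_sum {U δ B : ℝ} {n : ℕ} (hn : 0 < n) (hδ : 0 < δ) (hB : 0 < B)
    (hi : ∀ a b : ℝ, IntervalIntegrable e volume a b)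
    (hi2 : ∀ a b : ℝ, IntervalIntegrable (fun v => ‖e (v + δ) - e v‖ ^ 2) volume a b)
    (hQ : ∫ v in U..(U + (n + 1) * δ), ‖e (v + δ) - e v‖ ^ 2 ≤ δ * B ^ 2 / n) (p q : ℕ → ℝ)
    (hp : ∀ i < n, U + i * δ ≤ p i ∧ p i ≤ U + (i + 1) * δ)
    (hq : ∀ i < n, U + i * δ ≤ q i ∧ q i ≤ U + (i + 1) * δ) :
    ∑ i ∈ Finset.range n, ‖Av e δ (q i) - Av e δ (p i)‖ ≤ B := by
  have hnR : (0 : ℝ) < n := by exact_mod_cast hn
  have hl : 0 < B / n := by positivity
  have h1 : ∀ i ∈ Finset.range n, ‖Av e δ (q i) - Av e δ (p i)‖ ≤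
      δ⁻¹ * ∫ v in (U + i * δ)..(U + (i + 1) * δ), ‖e (v + δ) - e v‖ := by
    intro i hir
    rw [Finset.mem_range] at hir
    rw [near hi, norm_mul, norm_inv, Complex.norm_real, Real.norm_of_nonneg hδ.le]
    refine mul_le_mul_of_nonneg_left ?_ (by positivity)
    refine (intervalIntegral.norm_integral_le_abs_integral_norm).trans ?_
    rcases le_total (p i) (q i) with hpq | hpq
    · rw [abs_of_nonneg (intervalIntegral.integral_nonneg hpq fun v _ => norm_nonneg _)]
      exact intervalIntegral.integral_mono_interval (hp i hir).1 hpq (hq i hir).2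
        (Filter.Eventually.of_forall fun v => norm_nonneg _) (ii_norm hi δ _ _)
    · rw [intervalIntegral.integral_symm, abs_neg,
        abs_of_nonneg (intervalIntegral.integral_nonneg hpq fun v _ => norm_nonneg _)]
      exact intervalIntegral.integral_mono_interval (hq i hir).1 hpq (hp i hir).2
        (Filter.Eventually.of_forall fun v => norm_nonneg _) (ii_norm hi δ _ _)
  refine (Finset.sum_le_sum h1).trans ?_
  rw [← Finset.mul_sum, sum_cells U δ (ii_norm hi δ) n]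
  have h2 := amgm (lam := B / n) (show U ≤ U + n * δ by nlinarith) hl (ii_norm hi δ _ _) (hi2 U (U + n * δ))
  have h3 : ∫ v in U..(U + n * δ), ‖e (v + δ) - e v‖ ^ 2 ≤ δ * B ^ 2 / n := by
    refine le_trans ?_ hQ
    refine intervalIntegral.integral_mono_interval le_rfl (by nlinarith) (by nlinarith)
      (Filter.Eventually.of_forall fun v => by positivity) (hi2 _ _)
  rw [add_sub_cancel_left] at h2
  calc δ⁻¹ * ∫ v in U..(U + n * δ), ‖e (v + δ) - e v‖
      ≤ δ⁻¹ * (n * δ * (B / n / 2) + (2 * (B / n))⁻¹ * (δ * B ^ 2 / n)) := by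
        refine mul_le_mul_of_nonneg_left (h2.trans ?_) (by positivity)
        gcongr
    _ = B := by
        field_simp
        ring

/-- **The oscillation over the cells.** -/
theorem osc_abs {U δ B M : ℝ} {n J : ℕ} (hn : 0 < n) (hδ : 0 < δ) (hB : 0 < B)
    (hi : ∀ a b : ℝ, IntervalIntegrable e volume a b)
    (hi2 : ∀ h a b : ℝ, IntervalIntegrable (fun v => ‖e (v + h) - e v‖ ^ 2) volume a b)
    (hQ : ∀ j ≤ J, ∫ v in U..(U + (n + 1) * δ), ‖e (v + δ / 2 ^ j) - e v‖ ^ 2 ≤ δ / 2 ^ j * B ^ 2 / n)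
    (hM : ∀ u ∈ Icc U (U + n * δ), ∀ v ∈ Icc u (u + δ / 2 ^ J), ‖e v - e u‖ ≤ M) (p q : ℕ → ℝ)
    (hp : ∀ i < n, U + i * δ ≤ p i ∧ p i ≤ U + (i + 1) * δ)
    (hq : ∀ i < n, U + i * δ ≤ q i ∧ q i ≤ U + (i + 1) * δ) :
    ∑ i ∈ Finset.range n, ‖e (q i) - e (p i)‖ ≤ 2 * n * M + (2 * J + 1) * B := by
  have hin : ∀ i < n, ∀ x : ℝ, U + i * δ ≤ x ∧ x ≤ U + (i + 1) * δ → x ∈ Icc U (U + n * δ) := by
    intro i hin x hx
    have h1 : (0 : ℝ) ≤ i := Nat.cast_nonneg i
    have h2 : (i : ℝ) + 1 ≤ n := by exact_mod_cast hin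
    constructor
    · nlinarith [hx.1]
    · nlinarith [hx.2]
  have hh : 0 < δ / 2 ^ J := by positivity
  -- from the point to the average over the cell
  have key : ∀ p : ℕ → ℝ, (∀ i < n, U + i * δ ≤ p i ∧ p i ≤ U + (i + 1) * δ) →
      ∑ i ∈ Finset.range n, ‖Av e δ (p i) - e (p i)‖ ≤ n * M + J * B := by
    intro p hp
    have h1 : ∀ i ∈ Finset.range n, ‖Av e δ (p i) - e (p i)‖ ≤ M +
        ∑ j ∈ Finset.range J, (2 * (δ / 2 ^ (j + 1)))⁻¹ *
          ∫ v in (p i)..(p i + δ / 2 ^ (j + 1)), ‖e (v + δ / 2 ^ (j + 1)) - e v‖ := by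
      intro i hir
      rw [Finset.mem_range] at hir
      have e1 : Av e δ (p i) - e (p i) = (Av e (δ / 2 ^ J) (p i) - e (p i)) +
        (Av e δ (p i) - Av e (δ / 2 ^ J) (p i)) := by ring
      rw [e1]
      refine (norm_add_le _ _).trans (add_le_add ?_ (chain hi hδ (p i) J))
      exact av_end hi hh fun v hv => hM _ (hin i hir _ (hp i hir)) v hv
    refine (Finset.sum_le_sum h1).trans ?_
    rw [Finset.sum_add_distrib, Finset.sum_const, Finset.card_range, nsmul_eq_mul, Finset.sum_comm]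
    refine add_le_add le_rfl ?_
    have h2 : ∀ j ∈ Finset.range J, ∑ i ∈ Finset.range n, (2 * (δ / 2 ^ (j + 1)))⁻¹ *
        ∫ v in (p i)..(p i + δ / 2 ^ (j + 1)), ‖e (v + δ / 2 ^ (j + 1)) - e v‖ ≤ B := by
      intro j hj
      rw [Finset.mem_range] at hj
      refine one_scale hn hδ (by positivity) ?_ hB hi (hi2 _) (hQ (j + 1) hj) p hp
      exact div_le_self hδ.le (one_le_pow₀ (by norm_num))
    refine (Finset.sum_le_sum h2).trans ?_
    rw [Finset.sum_const, Finset.card_range, nsmul_eq_mul]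
  have h0 := hQ 0 (Nat.zero_le J)
  rw [pow_zero, div_one] at h0
  have h3 := near_sum hn hδ hB hi (hi2 _) h0 p q hp hq
  have h4 := key p hp
  have h5 := key q hq
  have h6 : ∀ i ∈ Finset.range n, ‖e (q i) - e (p i)‖ ≤ ‖Av e δ (q i) - e (q i)‖ +
      ‖Av e δ (q i) - Av e δ (p i)‖ + ‖Av e δ (p i) - e (p i)‖ := by
    intro i _
    have e1 : e (q i) - e (p i) = -(Av e δ (q i) - e (q i)) + (Av e δ (q i) - Av e δ (p i)) +
      (Av e δ (p i) - e (p i)) := by ring
    rw [e1]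
    refine (norm_add_le _ _).trans (add_le_add ((norm_add_le _ _).trans ?_) le_rfl)
    rw [norm_neg]
  refine (Finset.sum_le_sum h6).trans ?_
  rw [Finset.sum_add_distrib, Finset.sum_add_distrib]
  linarith

end

end Run7.h684.Smp
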