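import Pool.Agent.Run7.h684.Smp.Cnt

/-!
# The Chebyshev function and the Mertens function
-/

set_option autoImplicit false

open MeasureTheory Filter Topology Set
open Pool.Agent.H295R2 (Zs Zs_eq fz)
open Pool.Agent.W190.Q306 (aL gz)

namespace Run7.h684.Smp

noncomputable section

/-- `|ψ(x) - x|` -/
def psiErr (x : ℝ) : ℝ := |Chebyshev.psi x - x|

/-- `|M(x)|` -/
def merErr (x : ℝ) : ℝ := |∑ n ∈ Finset.Icc 1 ⌊x⌋₊, ((ArithmeticFunction.moebius n : ℤ) : ℝ)|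

/-- coefficients -/
def lamC (n : ℕ) : ℂ := ((aL n : ℝ) : ℂ)

/-- coefficients -/
def mobC (n : ℕ) : ℂ := ((ArithmeticFunction.moebius n : ℤ) : ℂ)

theorem Zs_free {Θ : ℝ} (hz : ∀ s : ℂ, Θ < s.re → riemannZeta s ≠ 0) : ∀ s : ℂ, Θ < s.re → Zs s ≠ 0 := by
  intro s hs
  by_cases h : s = 1
  · rw [h, Pool.Agent.W190.Q306.Zs_one]
    exact one_ne_zero
  · rw [← Zs_eq h]
    exact mul_ne_zero (sub_ne_zero.2 h) (hz s hs)

theorem PS_lamC (y : ℝ) : PS lamC y = ((Chebyshev.psi y - ⌊y⌋₊ : ℝ) : ℂ) := by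
  unfold PS lamC
  rw [← Complex.ofReal_sum, Pool.Agent.W190.Q306.sum_aL, ← Chebyshev.psi_eq_psi_coe_floor]

theorem PS_mobC (y : ℝ) : ‖PS mobC y‖ = merErr y := by
  unfold PS mobC merErr
  have : ∑ n ∈ Finset.Icc 1 ⌊y⌋₊, ((ArithmeticFunction.moebius n : ℤ) : ℂ) =
      ((∑ n ∈ Finset.Icc 1 ⌊y⌋₊, ((ArithmeticFunction.moebius n : ℤ) : ℝ) : ℝ) : ℂ) := by
    push_cast
    rfl
  rw [this, Complex.norm_real, Real.norm_eq_abs]

theorem PS_lamC_le {y : ℝ} (hy : 0 ≤ y) : ‖PS lamC y‖ ≤ psiErr y + 1 := by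
  rw [PS_lamC, Complex.norm_real, Real.norm_eq_abs]
  unfold psiErr
  have h1 : (⌊y⌋₊ : ℝ) ≤ y := Nat.floor_le hy
  have h2 : y < ⌊y⌋₊ + 1 := Nat.lt_floor_add_one y
  have e1 : Chebyshev.psi y - ⌊y⌋₊ = (Chebyshev.psi y - y) + (y - ⌊y⌋₊) := by ring
  rw [e1]
  refine (abs_add_le _ _).trans (add_le_add le_rfl ?_)
  rw [abs_le]
  constructor <;> linarith

theorem psiErr_le {y : ℝ} (hy : 0 ≤ y) : psiErr y ≤ ‖PS lamC y‖ + 1 := by
  rw [PS_lamC, Complex.norm_real, Real.norm_eq_abs]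
  unfold psiErr
  have h1 : (⌊y⌋₊ : ℝ) ≤ y := Nat.floor_le hy
  have h2 : y < ⌊y⌋₊ + 1 := Nat.lt_floor_add_one y
  have e1 : Chebyshev.psi y - y = (Chebyshev.psi y - ⌊y⌋₊) + (⌊y⌋₊ - y) := by ring
  rw [e1]
  refine (abs_add_le _ _).trans (add_le_add le_rfl ?_)
  rw [abs_le]
  constructor <;> linarith

theorem dat_lam {Θ : ℝ} (h0 : 1 / 2 ≤ Θ) (hz : ∀ s : ℂ, Θ < s.re → riemannZeta s ≠ 0) :
    Dat lamC gz Θ where
  h0 := by linarith
  coe := by
    intro n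
    unfold lamC
    rw [Complex.norm_real, Real.norm_eq_abs]
    unfold aL
    split_ifs with hn
    · simp [hn]
    · have h1 := ArithmeticFunction.vonMangoldt_nonneg (n := n)
      have h2 := ArithmeticFunction.vonMangoldt_le_log (n := n)
      rw [abs_le]
      constructor <;> linarith
  ser := by
    intro s hs
    have h1 : s ≠ 1 := by
      rintro rfl
      norm_num at hs
    rw [Pool.Agent.W190.Q306.gz_eq h1 (riemannZeta_ne_zero_of_one_le_re hs.le)]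
    exact Pool.Agent.W190.Q306.aL_series s hs
  dif := fun s hs => Pool.Agent.W190.Q306.gz_differentiableAt (Zs_free hz s hs)
  sum := by
    intro σ hσ hσ1
    obtain ⟨C, hC0, hC⟩ := Pool.Agent.W190.Q306.psi_bound (by linarith) (Zs_free hz) hσ hσ1
    refine ⟨C + 1, fun y hy => (PS_lamC_le (by linarith)).trans ?_⟩
    have h1 := hC y hy
    have h2 : 1 ≤ y ^ σ := Real.one_le_rpow hy (by linarith)
    unfold psiErr
    linarith
  gro := by
    intro σ ε hσ hσ1 hε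
    obtain ⟨C, _, hC⟩ := Pool.Agent.W190.Q306.gz_bound (by linarith) (Zs_free hz) hσ hσ1 hε
    refine ⟨C, fun t => ?_⟩
    have h1 := hC ((σ : ℂ) + t * Complex.I) (by simp) (by simp; linarith)
    simpa using h1

theorem dat_mob {Θ : ℝ} (h0 : 1 / 2 ≤ Θ) (hz : ∀ s : ℂ, Θ < s.re → riemannZeta s ≠ 0) :
    Dat mobC fz Θ where
  h0 := by linarith
  coe := by
    intro n
    have h1 := Pool.Agent.H295R2.abs_mu_le n
    unfold Pool.Agent.H295R2.mu at h1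
    unfold mobC
    have e1 : ‖((ArithmeticFunction.moebius n : ℤ) : ℂ)‖ = |((ArithmeticFunction.moebius n : ℤ) : ℝ)| := by
      rw [← Complex.ofReal_intCast, Complex.norm_real, Real.norm_eq_abs]
    rw [e1]
    have h2 : 0 ≤ Real.log n := Real.log_natCast_nonneg n
    linarith
  ser := fun s hs => (Pool.Agent.H295R2.moebius_lseries hs).LSeries_eq
  dif := fun s hs => Pool.Agent.H295R2.fz_differentiableAt (Zs_free hz s hs)
  sum := by
    intro σ hσ hσ1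
    obtain ⟨C, hC0, hC⟩ := Pool.Agent.H295R2.mertens_bound (by linarith) (Zs_free hz) hσ (by linarith)
    refine ⟨C, fun y hy => ?_⟩
    rw [PS_mobC]
    exact hC y hy
  gro := by
    intro σ ε hσ hσ1 hε
    obtain ⟨C, _, hC⟩ := Pool.Agent.H295R2.fz_bound (by linarith) (Zs_free hz) hσ hε
    refine ⟨C, fun t => ?_⟩
    have h1 := hC ((σ : ℂ) + t * Complex.I) (by simp) (by simp; linarith)
    simpa using h1

/-- the supremum of the real parts, when it is greater than one half -/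
theorem exists_sup {θ : ℝ} (hz : ∃ s : ℂ, riemannZeta s = 0 ∧ θ < s.re) :
    ∃ Θ : ℝ, θ < Θ ∧ Θ ≤ 1 ∧ (∀ s : ℂ, Θ < s.re → riemannZeta s ≠ 0) ∧
      ∀ θ' : ℝ, θ' < Θ → ∃ s : ℂ, riemannZeta s = 0 ∧ θ' < s.re := by
  set S : Set ℝ := Complex.re '' {s : ℂ | riemannZeta s = 0} with hS
  have hb : ∀ s : ℂ, riemannZeta s = 0 → s.re ≤ 1 := by
    intro s hs
    by_contra hcon
    exact riemannZeta_ne_zero_of_one_le_re (not_le.1 hcon).le hs
  have hbdd : BddAbove S := by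
    refine ⟨1, ?_⟩
    rintro x ⟨s, hs, rfl⟩
    exact hb s hs
  obtain ⟨s0, hs0, hs1⟩ := hz
  have hne : S.Nonempty := ⟨_, s0, hs0, rfl⟩
  refine ⟨sSup S, hs1.trans_le (le_csSup hbdd ⟨s0, hs0, rfl⟩), ?_, ?_, ?_⟩
  · refine csSup_le hne ?_
    rintro x ⟨s, hs, rfl⟩
    exact hb s hs
  · intro s hs h0
    have : s.re ≤ sSup S := le_csSup hbdd ⟨s, h0, rfl⟩
    linarith
  · intro θ' hθ'
    obtain ⟨x, ⟨s, hs, rfl⟩, hx⟩ := exists_lt_of_lt_csSup hne hθ'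
    exact ⟨s, hs, hx⟩

/-- lower bounds on the windows -/
theorem low_mob {Θ : ℝ} (h0 : 1 / 2 < Θ)
    (hs : ∀ θ' : ℝ, θ' < Θ → ∃ s : ℂ, riemannZeta s = 0 ∧ θ' < s.re) (θ' : ℝ) (hθ' : θ' < Θ) (c : ℝ)
    (hc : 0 < c) : ∀ᶠ x : ℝ in atTop, x ^ (1 + θ') < ∫ y in x..(x + c * x), ‖PS mobC y‖ := by
  have h1 : max θ' (1 / 2) < Θ := max_lt hθ' h0
  have h2 := Pool.Agent.W190.moebius_window (κ := 0) (θ := max θ' (1 / 2)) (c := c) (δ := 0) le_rfl hc
    (by norm_num) (le_max_right _ _) (by nlinarith [sq_nonneg (2 * max θ' (1 / 2) - 1)])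
    (hs _ h1)
  filter_upwards [h2, eventually_ge_atTop 1] with x hx hx1
  have h3 := hx 0 (by simp)
  simp only [Polynomial.eval_zero, sub_zero, Real.rpow_zero, div_one] at h3
  have e1 : ∀ y : ℝ, ‖PS mobC y‖ = |Pool.Agent.W190.SF
      (fun n => ((ArithmeticFunction.moebius n : ℤ) : ℝ)) y| := fun y => PS_mobC y
  simp_rw [e1]
  refine lt_of_le_of_lt ?_ h3
  exact Real.rpow_le_rpow_of_exponent_le hx1 (by linarith [le_max_left θ' (1 / 2)])

theorem low_lam {Θ : ℝ} (h0 : 1 / 2 < Θ)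
    (hs : ∀ θ' : ℝ, θ' < Θ → ∃ s : ℂ, riemannZeta s = 0 ∧ θ' < s.re) (θ' : ℝ) (hθ' : θ' < Θ) (c : ℝ)
    (hc : 0 < c) : ∀ᶠ x : ℝ in atTop, x ^ (1 + θ') < ∫ y in x..(x + c * x), ‖PS lamC y‖ := by
  have h1 : max θ' (1 / 2) < Θ := max_lt hθ' h0
  set θ1 : ℝ := (max θ' (1 / 2) + Θ) / 2 with hθ1
  have h11 : max θ' (1 / 2) < θ1 := by rw [hθ1]; linarith
  have h12 : θ1 < Θ := by rw [hθ1]; linarith
  have h13 : 1 / 2 ≤ θ1 := (le_max_right θ' (1 / 2)).trans h11.le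
  have h14 : θ' < θ1 := (le_max_left θ' (1 / 2)).trans_lt h11
  have h2 := Pool.Agent.W190.mangoldt_window (κ := 0) (θ := θ1) (c := c) (δ := 1 / 2) le_rfl hc
    (by norm_num) h13 (by nlinarith [sq_nonneg (2 * θ1 - 1)]) (hs _ h12)
  have h4 := ev_rpow 2 (show 1 + θ' < 1 + θ1 by linarith)
  have h5 := ev_rpow (2 * c) (show (1 : ℝ) < 1 + θ1 by linarith)
  filter_upwards [h2, h4, h5, eventually_ge_atTop 1, Real.tendsto_log_atTop.eventually_ge_atTop 1]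
    with x hx g4 g5 hx1 hlog
  have h3 := hx Polynomial.X (by
    rw [Polynomial.natDegree_X]
    push_cast
    exact Real.one_le_rpow hlog (by norm_num))
  simp only [Polynomial.eval_X, Real.rpow_zero, div_one] at h3
  have hle : x ≤ x + c * x := by nlinarith
  have hii : IntervalIntegrable (fun y => ‖PS lamC y‖) volume x (x + c * x) := by
    obtain ⟨Θ', _, _, g3, _⟩ := exists_sup (θ := θ') (hs θ' hθ')
    have g6 : ∀ s : ℂ, max Θ' (1 / 2) < s.re → riemannZeta s ≠ 0 := fun s hs' =>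
      g3 s ((le_max_left _ _).trans_lt hs')
    exact PS_ii (dat_lam (le_max_right _ _) g6) _ _
  have e1 : ∀ y : ℝ, Pool.Agent.W190.SF (fun n => ArithmeticFunction.vonMangoldt n) y = Chebyshev.psi y :=
    Pool.Agent.W190.SF_psi
  simp_rw [e1] at h3
  have h6 : ∫ y in x..(x + c * x), |Chebyshev.psi y - y| ≤ ∫ y in x..(x + c * x), (‖PS lamC y‖ + 1) := by
    by_cases hint : IntervalIntegrable (fun y => |Chebyshev.psi y - y|) volume x (x + c * x)
    · refine intervalIntegral.integral_mono_on hle hint (hii.add intervalIntegrable_const) fun y hy => ?_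
      exact psiErr_le (by linarith [hy.1])
    · rw [intervalIntegral.integral_undef hint]
      exact intervalIntegral.integral_nonneg hle fun y _ => by positivity
  rw [intervalIntegral.integral_add hii intervalIntegrable_const, intervalIntegral.integral_const,
    smul_eq_mul, mul_one, add_sub_cancel_left] at h6
  rw [Real.rpow_one] at g5
  linarith

/-- **Large values at the points of a sparse set: the Chebyshev function.** -/
theorem sparse_psi (Y : Set ℝ) {η C0 c θ ε : ℝ} (hη : 0 < η) (hη1 : η ≤ 1) (hc : 0 < c)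
    (hY : ∀ᶠ x : ℝ in atTop, ∃ y ∈ Y, x ≤ y ∧ y ≤ x + C0 * x ^ (1 - η))
    (hθ : 1 / 2 ≤ θ) (hz : ∃ s : ℂ, riemannZeta s = 0 ∧ θ < s.re) (hε : 0 < ε) :
    ∀ᶠ X : ℝ in atTop, ∃ T : Finset ℝ, (∀ y ∈ T, y ∈ Y ∧ X ≤ y ∧ y ≤ X + c * X ∧
      y ^ θ < psiErr y) ∧ X ^ (η - ε) ≤ T.card := by
  obtain ⟨Θ, h1, h2, h3, h4⟩ := exists_sup hz
  have h := main_abs (dat_lam (by linarith) h3) (by linarith) (low_lam (by linarith) h4) Y hη hη1 hc hY
    (by linarith) h1 hε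
  filter_upwards [h, eventually_ge_atTop 1] with X hX hX1
  obtain ⟨T, hT1, hT2⟩ := hX
  refine ⟨T, fun y hy => ?_, hT2⟩
  obtain ⟨g1, g2, g3, g4⟩ := hT1 y hy
  refine ⟨g1, g2, g3, ?_⟩
  have g5 := PS_lamC_le (y := y) (by linarith)
  have g6 : 1 ≤ y ^ θ := Real.one_le_rpow (by linarith) (by linarith)
  linarith

/-- **Large values at the points of a sparse set: the Mertens function.** -/
theorem sparse_mer (Y : Set ℝ) {η C0 c θ ε : ℝ} (hη : 0 < η) (hη1 : η ≤ 1) (hc : 0 < c)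
    (hY : ∀ᶠ x : ℝ in atTop, ∃ y ∈ Y, x ≤ y ∧ y ≤ x + C0 * x ^ (1 - η))
    (hθ : 1 / 2 ≤ θ) (hz : ∃ s : ℂ, riemannZeta s = 0 ∧ θ < s.re) (hε : 0 < ε) :
    ∀ᶠ X : ℝ in atTop, ∃ T : Finset ℝ, (∀ y ∈ T, y ∈ Y ∧ X ≤ y ∧ y ≤ X + c * X ∧
      y ^ θ < merErr y) ∧ X ^ (η - ε) ≤ T.card := by
  obtain ⟨Θ, h1, h2, h3, h4⟩ := exists_sup hz
  have h := main_abs (dat_mob (by linarith) h3) (by linarith) (low_mob (by linarith) h4) Y hη hη1 hc hY
    (by linarith) h1 hε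
  filter_upwards [h, eventually_ge_atTop 1] with X hX hX1
  obtain ⟨T, hT1, hT2⟩ := hX
  refine ⟨T, fun y hy => ?_, hT2⟩
  obtain ⟨g1, g2, g3, g4⟩ := hT1 y hy
  refine ⟨g1, g2, g3, ?_⟩
  rw [PS_mobC] at g4
  have g6 : 1 ≤ y ^ θ := Real.one_le_rpow (by linarith) (by linarith)
  linarith

end

end Run7.h684.Smp
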