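import Pool.Agent.Run7.h684.Smp.Ms
import Pool.Agent.Run7.h684.Smp.Chain

/-!
# The oscillation of the partial sums over the cells of a window
-/

set_option autoImplicit false

open MeasureTheory Filter Topology Set

namespace Run7.h684.Smp

noncomputable section

variable {a : ℕ → ℂ} {F : ℂ → ℂ} {θ : ℝ}

/-- the difference of the partial sums -/
theorem E_sub (a : ℕ → ℂ) {u v : ℝ} (huv : u ≤ v) :
    E a v - E a u = ∑ m ∈ Finset.Ioc ⌊Real.exp u⌋₊ ⌊Real.exp v⌋₊, a m := by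
  have h1 : ⌊Real.exp u⌋₊ ≤ ⌊Real.exp v⌋₊ := Nat.floor_le_floor (Real.exp_le_exp.2 huv)
  unfold E PS
  have h2 : ∀ N : ℕ, Finset.Icc 1 N = Finset.Ioc 0 N := by
    intro N
    ext m
    simp [Nat.one_le_iff_ne_zero, Nat.pos_iff_ne_zero]
  rw [h2, h2, sub_eq_iff_eq_add', Finset.sum_Ioc_consecutive _ (Nat.zero_le _) h1]

/-- at the finest scale -/
theorem Dat.fine (h : Dat a F θ) {V d : ℝ} (hd : d ≤ Real.exp (-V)) (hd1 : d ≤ 1) {u v : ℝ}
    (hu : 0 ≤ u) (huV : u ≤ V) (huv : u ≤ v) (hvd : v ≤ u + d) (hv : v ≤ V) :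
    ‖E a v - E a u‖ ≤ 3 * (2 + V) := by
  rw [E_sub a huv]
  have h1 : ∀ m ∈ Finset.Ioc ⌊Real.exp u⌋₊ ⌊Real.exp v⌋₊, ‖a m‖ ≤ 2 + V := by
    intro m hm
    rw [Finset.mem_Ioc] at hm
    have h2 : (m : ℝ) ≤ Real.exp v := (Nat.le_floor_iff (Real.exp_pos v).le).1 hm.2
    have h3 : (0 : ℝ) < m := by
      have : 0 < m := by omega
      exact_mod_cast this
    have h4 : Real.log m ≤ v := by
      have := Real.log_le_log h3 h2
      rwa [Real.log_exp] at this
    have := h.coe m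
    linarith
  refine (norm_sum_le _ _).trans ((Finset.sum_le_sum h1).trans ?_)
  rw [Finset.sum_const, Nat.card_Ioc, nsmul_eq_mul]
  have h5 : ⌊Real.exp u⌋₊ ≤ ⌊Real.exp v⌋₊ := Nat.floor_le_floor (Real.exp_le_exp.2 huv)
  rw [Nat.cast_sub h5]
  have h6 : (⌊Real.exp v⌋₊ : ℝ) ≤ Real.exp v := Nat.floor_le (Real.exp_pos v).le
  have h7 : Real.exp u < ⌊Real.exp u⌋₊ + 1 := Nat.lt_floor_add_one _
  have h8 : Real.exp v - Real.exp u ≤ 2 := by
    have e1 : Real.exp v - Real.exp u = Real.exp u * (Real.exp (v - u) - 1) := by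
      rw [mul_sub, ← Real.exp_add]
      ring_nf
    have h9 : Real.exp (v - u) - 1 ≤ 2 * (v - u) := by
      have h10 : |v - u| ≤ 1 := by
        rw [abs_of_nonneg (by linarith)]
        linarith
      have h11 := Real.abs_exp_sub_one_le h10
      rw [abs_of_nonneg (show 0 ≤ v - u by linarith)] at h11
      exact (le_abs_self _).trans h11
    rw [e1]
    calc Real.exp u * (Real.exp (v - u) - 1) ≤ Real.exp V * (2 * Real.exp (-V)) := by
          refine mul_le_mul (Real.exp_le_exp.2 huV) (by linarith) ?_ (Real.exp_pos _).le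
          have := Real.one_le_exp (show 0 ≤ v - u by linarith)
          linarith
      _ = 2 := by
          rw [mul_left_comm, ← Real.exp_add]
          simp
  have h12 : 0 ≤ 2 + V := by linarith
  nlinarith

/-- **The oscillation over the cells of a window.** -/
theorem Dat.osc (h : Dat a F θ) {σ ε : ℝ} (hσ : θ < σ) (hε : 0 < ε) (hε1 : ε < 1) :
    ∃ C : ℝ, 0 < C ∧ ∀ (U δ : ℝ) (n : ℕ), 0 ≤ U → 0 < δ → δ ≤ 1 → 0 < n →
      Real.exp (-(U + (n + 1) * δ)) ≤ δ → ∀ p q : ℕ → ℝ,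
      (∀ i < n, U + i * δ ≤ p i ∧ p i ≤ U + (i + 1) * δ) →
      (∀ i < n, U + i * δ ≤ q i ∧ q i ≤ U + (i + 1) * δ) →
      ∑ i ∈ Finset.range n, ‖E a (q i) - E a (p i)‖ ≤
        C * (1 + (U + (n + 1) * δ)) * (n + Real.exp ((σ + ε) * (U + (n + 1) * δ)) * Real.sqrt n) := by
  obtain ⟨C, hC0, hC⟩ := h.ms hσ (show 0 < ε / 2 by linarith) (by linarith)
  refine ⟨12 + 10 * Real.sqrt C, by positivity, fun U δ n hU hδ hδ1 hn hVδ p q hp hq => ?_⟩
  set V : ℝ := U + (n + 1) * δ with hV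
  have hnR : (0 : ℝ) < n := by exact_mod_cast hn
  have hV0 : 0 < V := by
    rw [hV]
    have : 0 < ((n : ℝ) + 1) * δ := by positivity
    linarith
  set J : ℕ := 2 * ⌈V⌉₊ with hJ
  have hceil : V ≤ ⌈V⌉₊ := Nat.le_ceil V
  have hceil2 : (⌈V⌉₊ : ℝ) < V + 1 := Nat.ceil_lt_add_one hV0.le
  have h2J : Real.exp V ≤ 2 ^ J := by
    have e1 : (2 : ℝ) ^ J = 4 ^ (⌈V⌉₊ : ℝ) := by
      rw [Real.rpow_natCast, hJ, pow_mul]
      norm_num
    rw [e1]
    have h1 : Real.exp V ≤ (4 : ℝ) ^ V := by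
      rw [Real.rpow_def_of_pos (by norm_num)]
      apply Real.exp_le_exp.2
      have h2 : 1 ≤ Real.log 4 := by
        rw [Real.le_log_iff_exp_le (by norm_num)]
        have := Real.exp_one_lt_d9
        linarith
      nlinarith
    exact h1.trans (Real.rpow_le_rpow_of_exponent_le (by norm_num) hceil)
  have h2J' : (2 : ℝ) ^ J ≤ 4 * Real.exp (2 * V) := by
    have e1 : (2 : ℝ) ^ J = 4 ^ (⌈V⌉₊ : ℝ) := by
      rw [Real.rpow_natCast, hJ, pow_mul]
      norm_num
    rw [e1]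
    have h1 : (4 : ℝ) ^ V ≤ Real.exp (2 * V) := by
      rw [Real.rpow_def_of_pos (by norm_num)]
      apply Real.exp_le_exp.2
      have h2 : Real.log 4 ≤ 2 := by
        rw [Real.log_le_iff_le_exp (by norm_num)]
        have h3 := Real.exp_one_gt_d9
        have h4 : Real.exp 2 = Real.exp 1 * Real.exp 1 := by rw [← Real.exp_add]; norm_num
        rw [h4]
        nlinarith
      nlinarith
    calc (4 : ℝ) ^ (⌈V⌉₊ : ℝ) ≤ 4 ^ (V + 1) :=
          Real.rpow_le_rpow_of_exponent_le (by norm_num) hceil2.le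
      _ = 4 * 4 ^ V := by rw [Real.rpow_add (by norm_num), Real.rpow_one, mul_comm]
      _ ≤ _ := by linarith
  -- the constants
  set B : ℝ := 2 * Real.sqrt C * Real.exp ((σ + ε) * V) * Real.sqrt n with hB
  have hB0 : 0 < B := by rw [hB]; positivity
  have hM : ∀ u ∈ Icc U (U + n * δ), ∀ v ∈ Icc u (u + δ / 2 ^ J), ‖E a v - E a u‖ ≤ 3 * (2 + V) := by
    intro u hu v hv
    have h1 : δ / 2 ^ J ≤ Real.exp (-V) := by
      rw [div_le_iff₀ (by positivity), Real.exp_neg, inv_mul_eq_div, le_div_iff₀ (Real.exp_pos _)]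
      calc δ * Real.exp V ≤ 1 * Real.exp V := by gcongr
        _ ≤ 2 ^ J := by rw [one_mul]; exact h2J
    have h2 : δ / 2 ^ J ≤ δ := div_le_self hδ.le (one_le_pow₀ (by norm_num))
    have h3 : u ≤ V := by rw [hV]; nlinarith [hu.2]
    have h4 : v ≤ V := by
      rw [hV]
      have := hu.2
      have := hv.2
      nlinarith
    exact h.fine h1 (h2.trans hδ1) (hU.trans hu.1) h3 hv.1 hv.2 h4
  have hQ : ∀ j ≤ J, ∫ v in U..(U + (n + 1) * δ), ‖E a (v + δ / 2 ^ j) - E a v‖ ^ 2 ≤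
      δ / 2 ^ j * B ^ 2 / n := by
    intro j hj
    have hd0 : 0 < δ / 2 ^ j := by positivity
    have hd1 : δ / 2 ^ j ≤ 1 := (div_le_self hδ.le (one_le_pow₀ (by norm_num))).trans hδ1
    have h1 := hC (δ / 2 ^ j) hd0 hd1 U V (by
      rw [hV]
      have : 0 < ((n : ℝ) + 1) * δ := by positivity
      linarith)
    refine h1.trans ?_
    have h2 : (δ / 2 ^ j) ^ (1 - ε / 2) = δ / 2 ^ j * (δ / 2 ^ j) ^ (-(ε / 2)) := by
      rw [show 1 - ε / 2 = 1 + -(ε / 2) by ring, Real.rpow_add hd0, Real.rpow_one]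
    have h3 : Real.exp (-(3 * V)) / 4 ≤ δ / 2 ^ j := by
      have h4 : (2 : ℝ) ^ j ≤ 4 * Real.exp (2 * V) :=
        (pow_le_pow_right₀ (by norm_num) hj).trans h2J'
      rw [le_div_iff₀ (by positivity)]
      calc Real.exp (-(3 * V)) / 4 * 2 ^ j ≤ Real.exp (-(3 * V)) / 4 * (4 * Real.exp (2 * V)) := by
            gcongr
        _ = Real.exp (-V) := by
            rw [show Real.exp (-(3 * V)) / 4 * (4 * Real.exp (2 * V)) =
              Real.exp (-(3 * V)) * Real.exp (2 * V) by ring, ← Real.exp_add]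
            congr 1
            ring
        _ ≤ δ := hVδ
    have h5 : (δ / 2 ^ j) ^ (-(ε / 2)) ≤ 4 * Real.exp (2 * ε * V) := by
      have h6 : (δ / 2 ^ j) ^ (-(ε / 2)) ≤ (Real.exp (-(3 * V)) / 4) ^ (-(ε / 2)) :=
        Real.rpow_le_rpow_of_nonpos (by positivity) h3 (by linarith)
      refine h6.trans ?_
      rw [Real.div_rpow (Real.exp_pos _).le (by norm_num), ← Real.exp_mul,
        Real.rpow_neg (by norm_num : (0 : ℝ) ≤ 4), div_inv_eq_mul, mul_comm]
      have h7 : (4 : ℝ) ^ (ε / 2) ≤ 4 := by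
        calc (4 : ℝ) ^ (ε / 2) ≤ 4 ^ (1 : ℝ) :=
              Real.rpow_le_rpow_of_exponent_le (by norm_num) (by linarith)
          _ = 4 := Real.rpow_one 4
      have h8 : Real.exp (-(3 * V) * -(ε / 2)) ≤ Real.exp (2 * ε * V) := by
        apply Real.exp_le_exp.2
        nlinarith [mul_pos hε hV0]
      gcongr
    rw [h2]
    have h9 : δ / 2 ^ j * B ^ 2 / n = 4 * C * Real.exp (2 * (σ + ε) * V) * (δ / 2 ^ j) := by
      rw [hB]
      have e1 : Real.exp (2 * (σ + ε) * V) = Real.exp ((σ + ε) * V) ^ 2 := by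
        rw [← Real.exp_nat_mul]
        congr 1
        push_cast
        ring
      rw [e1, mul_pow, mul_pow, mul_pow, Real.sq_sqrt hC0.le, Real.sq_sqrt hnR.le]
      field_simp
      ring
    rw [h9]
    calc C * Real.exp (2 * σ * V) * (δ / 2 ^ j * (δ / 2 ^ j) ^ (-(ε / 2)))
        ≤ C * Real.exp (2 * σ * V) * (δ / 2 ^ j * (4 * Real.exp (2 * ε * V))) := by gcongr
      _ = 4 * C * (Real.exp (2 * σ * V) * Real.exp (2 * ε * V)) * (δ / 2 ^ j) := by ring
      _ = _ := by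
          rw [← Real.exp_add]
          congr 3
          ring
  have hmain := osc_abs hn hδ hB0 h.ii h.ii2 hQ hM p q hp hq
  refine hmain.trans ?_
  have hJ2 : (2 * (J : ℝ) + 1) ≤ 5 * (1 + V) := by
    rw [hJ]
    push_cast
    linarith
  have h1V : 0 < 1 + V := by linarith
  calc 2 * (n : ℝ) * (3 * (2 + V)) + (2 * J + 1) * B ≤ 12 * (1 + V) * n + 5 * (1 + V) * B := by
        have h2 : 2 * (n : ℝ) * (3 * (2 + V)) ≤ 12 * (1 + V) * n := by nlinarith
        have h3 : (2 * (J : ℝ) + 1) * B ≤ 5 * (1 + V) * B := by gcongr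
        linarith
    _ = 12 * (1 + V) * n + 10 * Real.sqrt C * (1 + V) * (Real.exp ((σ + ε) * V) * Real.sqrt n) := by
        rw [hB]; ring
    _ ≤ _ := by
        have h4 : 0 ≤ Real.exp ((σ + ε) * V) * Real.sqrt n := by positivity
        have h5 : 0 ≤ Real.sqrt C := Real.sqrt_nonneg _
        have h6 : (12 + 10 * Real.sqrt C) * (1 + V) * (n + Real.exp ((σ + ε) * V) * Real.sqrt n) =
            12 * (1 + V) * n + 10 * Real.sqrt C * (1 + V) * (Real.exp ((σ + ε) * V) * Real.sqrt n) +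
            (12 * (1 + V) * (Real.exp ((σ + ε) * V) * Real.sqrt n) + 10 * Real.sqrt C * (1 + V) * n) := by
          ring
        rw [h6]
        have h7 : 0 ≤ 12 * (1 + V) * (Real.exp ((σ + ε) * V) * Real.sqrt n) +
          10 * Real.sqrt C * (1 + V) * n := by positivity
        linarith

end

end Run7.h684.Smp
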